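import Mathlib

set_option autoImplicit false

/-! For `α = 3` the moduli of the zero branches of `G_{α,β}` have no common minimiser. -/

open Finset Set

namespace Pool.Agent.Results.MP_9fecad_an.NoCommonMinimiser

/-- `G_{α,β}(ξ) = ∑_{n=0}^{α+1} (α+1 choose n) (-ξ)^n/(n+β)` -/
noncomputable def G (α : ℕ) (β : ℝ) (ξ : ℂ) : ℂ :=
  ∑ n ∈ range (α + 2), ((α + 1).choose n : ℂ) * (-ξ) ^ n / ((n : ℂ) + (β : ℂ))

/-- `X_0, ..., X_α` list the zeros of `G_{α,β}` for every `β ∈ (-1,0)`: they are pairwise distinct,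
they are exactly the zeros, and `X_0` is the real negative zero. -/
structure Lists (α : ℕ) (X : Fin (α + 1) → ℝ → ℂ) : Prop where
  zero_iff : ∀ β ∈ Ioo (-1 : ℝ) 0, ∀ ξ : ℂ, G α β ξ = 0 ↔ ∃ k, X k β = ξ
  distinct : ∀ β ∈ Ioo (-1 : ℝ) 0, ∀ k l, X k β = X l β → k = l
  real_neg : ∀ β ∈ Ioo (-1 : ℝ) 0, (X 0 β).im = 0 ∧ (X 0 β).re < 0

/-- `β₀` minimises `|X_k|` over `(-1,0)` for every `k ∈ {1,...,α}` -/
def CommonMinimiser (α : ℕ) (X : Fin (α + 1) → ℝ → ℂ) (β₀ : ℝ) : Prop :=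
  β₀ ∈ Ioo (-1 : ℝ) 0 ∧ ∀ k, k ≠ 0 → ∀ β ∈ Ioo (-1 : ℝ) 0, ‖X k β₀‖ ≤ ‖X k β‖

theorem G3 (β : ℝ) (ξ : ℂ) : G 3 β ξ = 1 / (β : ℂ) - 4 * ξ / (1 + β) + 6 * ξ ^ 2 / (2 + β) -
    4 * ξ ^ 3 / (3 + β) + ξ ^ 4 / (4 + β) := by
  unfold G
  simp only [sum_range_succ, sum_range_zero]
  norm_num [Nat.choose]
  ring

/-- real version -/
noncomputable def g (β x : ℝ) : ℝ :=
  1 / β - 4 * x / (1 + β) + 6 * x ^ 2 / (2 + β) - 4 * x ^ 3 / (3 + β) + x ^ 4 / (4 + β)

theorem G3_real (β x : ℝ) : G 3 β (x : ℂ) = (g β x : ℝ) := by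
  rw [G3]
  unfold g
  push_cast
  ring

theorem vieta4 {a b c d e1 e2 e3 e4 : ℂ} (hab : a ≠ b) (hac : a ≠ c) (had : a ≠ d) (hbc : b ≠ c)
    (hbd : b ≠ d) (hcd : c ≠ d) (ha : a ^ 4 - e1 * a ^ 3 + e2 * a ^ 2 - e3 * a + e4 = 0)
    (hb : b ^ 4 - e1 * b ^ 3 + e2 * b ^ 2 - e3 * b + e4 = 0)
    (hc : c ^ 4 - e1 * c ^ 3 + e2 * c ^ 2 - e3 * c + e4 = 0)
    (hd : d ^ 4 - e1 * d ^ 3 + e2 * d ^ 2 - e3 * d + e4 = 0) :
    a + b + c + d = e1 ∧ a * b * c * d = e4 := by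
  have d1 : ∀ x y : ℂ, x ≠ y → x ^ 4 - e1 * x ^ 3 + e2 * x ^ 2 - e3 * x + e4 = 0 →
      y ^ 4 - e1 * y ^ 3 + e2 * y ^ 2 - e3 * y + e4 = 0 →
      (x ^ 3 + x ^ 2 * y + x * y ^ 2 + y ^ 3) - e1 * (x ^ 2 + x * y + y ^ 2) + e2 * (x + y) -
        e3 = 0 := by
    intro x y hxy hx hy
    have : (x - y) * ((x ^ 3 + x ^ 2 * y + x * y ^ 2 + y ^ 3) - e1 * (x ^ 2 + x * y + y ^ 2) +
      e2 * (x + y) - e3) = 0 := by linear_combination hx - hy
    exact (mul_eq_zero.1 this).resolve_left (sub_ne_zero.2 hxy)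
  have d2 : ∀ y z : ℂ, y ≠ z → a ≠ y → a ≠ z →
      y ^ 4 - e1 * y ^ 3 + e2 * y ^ 2 - e3 * y + e4 = 0 →
      z ^ 4 - e1 * z ^ 3 + e2 * z ^ 2 - e3 * z + e4 = 0 →
      (a ^ 2 + y ^ 2 + z ^ 2 + a * y + a * z + y * z) - e1 * (a + y + z) + e2 = 0 := by
    intro y z hyz hy hz hy' hz'
    have h1 := d1 a y hy ha hy'
    have h2 := d1 a z hz ha hz'
    have : (y - z) * ((a ^ 2 + y ^ 2 + z ^ 2 + a * y + a * z + y * z) - e1 * (a + y + z) + e2) =
        0 := by linear_combination h1 - h2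
    exact (mul_eq_zero.1 this).resolve_left (sub_ne_zero.2 hyz)
  have h1 := d2 b c hbc hab hac hb hc
  have h2 := d2 b d hbd hab had hb hd
  have h3 : (c - d) * (a + b + c + d - e1) = 0 := by linear_combination h1 - h2
  have h4 : a + b + c + d - e1 = 0 := (mul_eq_zero.1 h3).resolve_left (sub_ne_zero.2 hcd)
  have h5 := d1 a b hab ha hb
  have E1 : e1 = a + b + c + d := by linear_combination -h4
  subst E1
  have E2 : e2 = a * b + a * c + a * d + b * c + b * d + c * d := by linear_combination h1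
  subst E2
  have E3 : e3 = a * b * c + a * b * d + a * c * d + b * c * d := by linear_combination -h5
  subst E3
  refine ⟨rfl, ?_⟩
  linear_combination -ha

variable {X : Fin 4 → ℝ → ℂ}

theorem Lists.root (hX : Lists 3 X) {β : ℝ} (hβ : β ∈ Ioo (-1 : ℝ) 0) (k : Fin 4) :
    X k β ^ 4 - (4 * (4 + β) / (3 + β) : ℝ) * X k β ^ 3 + (6 * (4 + β) / (2 + β) : ℝ) *
      X k β ^ 2 - (4 * (4 + β) / (1 + β) : ℝ) * X k β + ((4 + β) / β : ℝ) = 0 := by
  have h := (hX.zero_iff β hβ (X k β)).2 ⟨k, rfl⟩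
  rw [G3] at h
  have h0 : (β : ℂ) ≠ 0 := by exact_mod_cast hβ.2.ne
  have h1 : (1 + β : ℂ) ≠ 0 := by
    have : (1 + β) ≠ 0 := by linarith [hβ.1]
    exact_mod_cast this
  have h2 : (2 + β : ℂ) ≠ 0 := by
    have : (2 + β) ≠ 0 := by linarith [hβ.1]
    exact_mod_cast this
  have h3 : (3 + β : ℂ) ≠ 0 := by
    have : (3 + β) ≠ 0 := by linarith [hβ.1]
    exact_mod_cast this
  have h4 : (4 + β : ℂ) ≠ 0 := by
    have : (4 + β) ≠ 0 := by linarith [hβ.1]
    exact_mod_cast this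
  push_cast
  have e : X k β ^ 4 - (4 * (4 + β) / (3 + β) : ℂ) * X k β ^ 3 + (6 * (4 + β) / (2 + β) : ℂ) *
      X k β ^ 2 - (4 * (4 + β) / (1 + β) : ℂ) * X k β + ((4 + β) / β : ℂ) =
      (4 + β) * (1 / (β : ℂ) - 4 * X k β / (1 + β) + 6 * X k β ^ 2 / (2 + β) -
      4 * X k β ^ 3 / (3 + β) + X k β ^ 4 / (4 + β)) := by
    field_simp
    ring
  rw [e, h, mul_zero]

theorem Lists.vieta (hX : Lists 3 X) {β : ℝ} (hβ : β ∈ Ioo (-1 : ℝ) 0) :
    X 0 β + X 1 β + X 2 β + X 3 β = ((4 * (4 + β) / (3 + β) : ℝ) : ℂ) ∧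
      X 0 β * X 1 β * X 2 β * X 3 β = (((4 + β) / β : ℝ) : ℂ) := by
  have hne : ∀ k l : Fin 4, k ≠ l → X k β ≠ X l β := fun k l h h' => h (hX.distinct β hβ k l h')
  exact vieta4 (hne 0 1 (by decide)) (hne 0 2 (by decide)) (hne 0 3 (by decide))
    (hne 1 2 (by decide)) (hne 1 3 (by decide)) (hne 2 3 (by decide)) (hX.root hβ 0)
    (hX.root hβ 1) (hX.root hβ 2) (hX.root hβ 3)

theorem Lists.prod (hX : Lists 3 X) {β : ℝ} (hβ : β ∈ Ioo (-1 : ℝ) 0) :
    ‖X 0 β‖ * (‖X 1 β‖ * ‖X 2 β‖ * ‖X 3 β‖) = (4 + β) / (-β) := by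
  have h := congrArg norm (hX.vieta hβ).2
  rw [norm_mul, norm_mul, norm_mul, Complex.norm_real, Real.norm_eq_abs, abs_div,
    abs_of_neg hβ.2, abs_of_pos (by linarith [hβ.1])] at h
  rw [← h]
  ring

theorem g_mono {β : ℝ} (hβ : β ∈ Ioo (-1 : ℝ) 0) {y z : ℝ} (hy : 0 ≤ y) (hyz : y < z) :
    g β (-y) < g β (-z) := by
  have h1 : 0 < 1 + β := by linarith [hβ.1]
  have h2 : 0 < 2 + β := by linarith [hβ.1]
  have h3 : 0 < 3 + β := by linarith [hβ.1]
  have h4 : 0 < 4 + β := by linarith [hβ.1]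
  unfold g
  have e1 : 4 * y / (1 + β) < 4 * z / (1 + β) := by gcongr
  have e2 : 6 * y ^ 2 / (2 + β) < 6 * z ^ 2 / (2 + β) := by gcongr
  have e3 : 4 * y ^ 3 / (3 + β) < 4 * z ^ 3 / (3 + β) := by gcongr
  have e4 : y ^ 4 / (4 + β) < z ^ 4 / (4 + β) := by gcongr
  have r1 : ∀ w : ℝ, 1 / β - 4 * -w / (1 + β) + 6 * (-w) ^ 2 / (2 + β) -
      4 * (-w) ^ 3 / (3 + β) + (-w) ^ 4 / (4 + β) = 1 / β + 4 * w / (1 + β) +
      6 * w ^ 2 / (2 + β) + 4 * w ^ 3 / (3 + β) + w ^ 4 / (4 + β) := by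
    intro w
    ring
  rw [r1, r1]
  linarith

/-- the modulus of the negative zero is located by signs -/
theorem Lists.neg (hX : Lists 3 X) {β : ℝ} (hβ : β ∈ Ioo (-1 : ℝ) 0) :
    X 0 β = ((-‖X 0 β‖ : ℝ) : ℂ) ∧ g β (-‖X 0 β‖) = 0 ∧ 0 < ‖X 0 β‖ := by
  obtain ⟨h1, h2⟩ := hX.real_neg β hβ
  have e : X 0 β = ((X 0 β).re : ℂ) := by
    apply Complex.ext <;> simp [h1]
  have e2 : ‖X 0 β‖ = -(X 0 β).re := by
    rw [e, Complex.norm_real, Real.norm_eq_abs, abs_of_neg (by simpa using h2)]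
    simp
  have e3 : X 0 β = ((-‖X 0 β‖ : ℝ) : ℂ) := by
    rw [e2, neg_neg]
    exact e
  refine ⟨e3, ?_, by rw [e2]; linarith⟩
  have h := (hX.zero_iff β hβ (X 0 β)).2 ⟨0, rfl⟩
  rw [e3, G3_real] at h
  exact_mod_cast h

theorem Lists.lt_of_pos (hX : Lists 3 X) {β : ℝ} (hβ : β ∈ Ioo (-1 : ℝ) 0) {y : ℝ} (hy : 0 < y)
    (h : 0 < g β (-y)) : ‖X 0 β‖ < y := by
  obtain ⟨-, h1, h2⟩ := hX.neg hβ
  by_contra hcon
  push Not at hcon
  rcases eq_or_lt_of_le hcon with h3 | h3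
  · rw [h3, h1] at h
    exact lt_irrefl _ h
  · have := g_mono hβ hy.le h3
    linarith

theorem Lists.gt_of_neg (hX : Lists 3 X) {β : ℝ} (hβ : β ∈ Ioo (-1 : ℝ) 0) {y : ℝ}
    (h : g β (-y) < 0) : y < ‖X 0 β‖ := by
  obtain ⟨-, h1, h2⟩ := hX.neg hβ
  by_contra hcon
  push Not at hcon
  rcases eq_or_lt_of_le hcon with h3 | h3
  · rw [← h3, h1] at h
    exact lt_irrefl _ h
  · have := g_mono hβ h2.le h3
    linarith

/-- outside the window there is a positive zero larger than `56/15` -/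
theorem big_root {β : ℝ} (hβ : β ∈ Ioo (-1 : ℝ) 0) (h : g β (56 / 15) < 0) :
    ∃ x : ℝ, 56 / 15 < x ∧ g β x = 0 := by
  have h1 : 0 < 1 + β := by linarith [hβ.1]
  have hb : 0 < -β := by linarith [hβ.2]
  have h2 : 0 < 2 + β := by linarith
  have h3 : 0 < 3 + β := by linarith
  have h4 : 0 < 4 + β := by linarith
  set M : ℝ := 64 / (-β * (1 + β)) with hM
  have hprod : 0 < -β * (1 + β) := mul_pos hb h1
  have hM1 : 64 / (1 + β) ≤ M := by
    rw [hM]
    refine div_le_div_of_nonneg_left (by norm_num) hprod ?_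
    nlinarith
  have hM2 : 64 / (-β) ≤ M := by
    rw [hM]
    refine div_le_div_of_nonneg_left (by norm_num) hprod ?_
    nlinarith
  have hM3 : 64 ≤ M := by
    rw [hM, le_div_iff₀ hprod]
    nlinarith
  have hcont : Continuous (g β) := by
    unfold g
    fun_prop
  have hpos : 0 < g β M := by
    unfold g
    have a1 : 64 ≤ M * (1 + β) := by
      rwa [div_le_iff₀ h1] at hM1
    have a2 : 64 ≤ M * (-β) := by
      rwa [div_le_iff₀ hb] at hM2
    have b1 : 4 * M / (1 + β) ≤ M ^ 2 / 16 := by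
      rw [div_le_iff₀ h1]
      nlinarith
    have b2 : 4 * M ^ 3 / (3 + β) ≤ 2 * M ^ 3 := by
      rw [div_le_iff₀ h3]
      have : 0 < M ^ 3 := by positivity
      nlinarith
    have b3 : M ^ 4 / 4 ≤ M ^ 4 / (4 + β) := by
      refine div_le_div_of_nonneg_left (by positivity) h4 (by linarith)
    have b4 : -M ≤ 1 / β := by
      have : 1 / β = -(1 / (-β)) := by
        field_simp
      rw [this, neg_le_neg_iff, div_le_iff₀ hb]
      linarith
    have b5 : 0 ≤ 6 * M ^ 2 / (2 + β) := by positivity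
    have hM0 : 0 < M := by linarith
    have c2 := pow_pos hM0 2
    have c3 := pow_pos hM0 3
    have b6 : 2 * M ^ 3 ≤ M ^ 4 / 32 := by nlinarith
    have b7 : M ^ 2 / 16 ≤ M ^ 4 / 32 := by nlinarith
    have b8 : M < M ^ 4 / 32 := by nlinarith
    have b9 : 0 < M ^ 4 := by positivity
    linarith
  have hle : (56 / 15 : ℝ) ≤ M := by linarith
  obtain ⟨x, hx, hx0⟩ := intermediate_value_Icc hle hcont.continuousOn
    (show (0 : ℝ) ∈ Icc (g β (56 / 15)) (g β M) from ⟨h.le, hpos.le⟩)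
  refine ⟨x, lt_of_le_of_ne hx.1 ?_, hx0⟩
  rintro rfl
  rw [hx0] at h
  exact lt_irrefl _ h

theorem polyA {t : ℝ} (h0 : 0 ≤ t) (h1 : t ≤ 1 / 4) : 0 < 24 - 1100194 / 5625 * t +
    23216291 / 50625 * t ^ 2 - 4273102 / 16875 * t ^ 3 + 2825761 / 50625 * t ^ 4 := by
  have e : 24 - 1100194 / 5625 * t + 23216291 / 50625 * t ^ 2 - 4273102 / 16875 * t ^ 3 +
      2825761 / 50625 * t ^ 4 = (6144/1) * (t - 0)^0 * (1/4 - t)^4 + (67827584/5625) * (t - 0)^1 * (1/4 - t)^3 + (336565424/50625) * (t - 0)^2 * (1/4 - t)^2 + (34668856/50625) * (t - 0)^3 * (1/4 - t)^1 + (112483/16875) * (t - 0)^4 * (1/4 - t)^0 := by ring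
  have h2 : 0 ≤ 1 / 4 - t := by linarith
  rw [e]
  rcases eq_or_lt_of_le h0 with h | h
  · rw [← h]
    norm_num
  · have : 0 < t - 0 := by linarith
    positivity

theorem polyB {t : ℝ} (h0 : 57 / 200 ≤ t) (h1 : t ≤ 1) : 0 < 24 - 1100194 / 5625 * t +
    23216291 / 50625 * t ^ 2 - 4273102 / 16875 * t ^ 3 + 2825761 / 50625 * t ^ 4 := by
  have e : 24 - 1100194 / 5625 * t + 23216291 / 50625 * t ^ 2 - 4273102 / 16875 * t ^ 3 +
      2825761 / 50625 * t ^ 4 = (112510121129/2352159005625) * (t - 57/200)^0 * (1 - t)^4 + (7214698343024/282259080675) * (t - 57/200)^1 * (1 - t)^3 + (20429462400704/33871089681) * (t - 57/200)^2 * (1 - t)^2 + (29286879155200/33871089681) * (t - 57/200)^3 * (1 - t)^1 + (143360000000/418161601) * (t - 57/200)^4 * (1 - t)^0 := by ring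
  have h2 : 0 ≤ 1 - t := by linarith
  rw [e]
  rcases eq_or_lt_of_le h0 with h | h
  · rw [← h]
    norm_num
  · have : 0 < t - 57 / 200 := by linarith
    positivity

theorem outside {β : ℝ} (hβ : β ∈ Ioo (-1 : ℝ) 0) (h : β ≤ -(57 / 200) ∨ -(1 / 4) ≤ β) :
    g β (56 / 15) < 0 := by
  have h1 : 0 < 1 + β := by linarith [hβ.1]
  have hb : 0 < -β := by linarith [hβ.2]
  have h2 : 0 < 2 + β := by linarith
  have h3 : 0 < 3 + β := by linarith
  have h4 : 0 < 4 + β := by linarith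
  have hpoly : 0 < 24 - 1100194 / 5625 * (-β) + 23216291 / 50625 * (-β) ^ 2 -
      4273102 / 16875 * (-β) ^ 3 + 2825761 / 50625 * (-β) ^ 4 := by
    rcases h with h | h
    · exact polyB (by linarith) (by linarith)
    · exact polyA hb.le (by linarith)
  have e : g β (56 / 15) = -((24 - 1100194 / 5625 * (-β) + 23216291 / 50625 * (-β) ^ 2 -
      4273102 / 16875 * (-β) ^ 3 + 2825761 / 50625 * (-β) ^ 4) /
      ((-β) * (1 + β) * (2 + β) * (3 + β) * (4 + β))) := by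
    have hb' : β ≠ 0 := hβ.2.ne
    unfold g
    field_simp
    ring
  rw [e, neg_lt_zero]
  positivity

theorem polyC {t : ℝ} (h0 : 1 / 4 ≤ t) (h1 : t ≤ 57 / 200) :
    0 < -(2803 / 100) ^ 4 * (t ^ 3 * (1 - t) * (2 - t) * (3 - t)) +
      4 * (2803 / 100) ^ 3 * (t ^ 3 * (4 - t) * (2 - t) * (3 - t)) +
      6 * (2803 / 100) ^ 2 * (t ^ 2 * (4 - t) ^ 2 * (1 - t) * (3 - t)) +
      4 * (2803 / 100) * (t * (4 - t) ^ 3 * (1 - t) * (2 - t)) +
      (4 - t) ^ 3 * (1 - t) * (2 - t) * (3 - t) := by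
  have e : -(2803 / 100) ^ 4 * (t ^ 3 * (1 - t) * (2 - t) * (3 - t)) +
      4 * (2803 / 100) ^ 3 * (t ^ 3 * (4 - t) * (2 - t) * (3 - t)) +
      6 * (2803 / 100) ^ 2 * (t ^ 2 * (4 - t) ^ 2 * (1 - t) * (3 - t)) +
      4 * (2803 / 100) * (t * (4 - t) ^ 3 * (1 - t) * (2 - t)) +
      (4 - t) ^ 3 * (1 - t) * (2 - t) * (3 - t) = (179860411963055625/470596) * (t - 1/4)^0 * (57/200 - t)^6 + (905997996997840575/470596) * (t - 1/4)^1 * (57/200 - t)^5 + (7394436492799454751/1882384) * (t - 1/4)^2 * (57/200 - t)^4 + (3886709162895064113/941192) * (t - 1/4)^3 * (57/200 - t)^3 + (11010682227236617247751/4705960000) * (t - 1/4)^4 * (57/200 - t)^2 + (78913142248697555203047/117649000000) * (t - 1/4)^5 * (57/200 - t)^1 + (886691019024337494995169/11764900000000) * (t - 1/4)^6 * (57/200 - t)^0 := by ring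
  have h2 : 0 ≤ 57 / 200 - t := by linarith
  rw [e]
  rcases eq_or_lt_of_le h0 with h | h
  · rw [← h]
    norm_num
  · have : 0 < t - 1 / 4 := by linarith
    positivity

theorem inside {β : ℝ} (h0 : -(57 / 200) ≤ β) (h1 : β ≤ -(1 / 4)) :
    0 < g β (-((4 + β) / (-β * (2803 / 100)))) := by
  have hp := polyC (t := -β) (by linarith) (by linarith)
  have h1' : 0 < 1 + β := by linarith
  have hb : 0 < -β := by linarith
  have h2 : 0 < 2 + β := by linarith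
  have h3 : 0 < 3 + β := by linarith
  have h4 : 0 < 4 + β := by linarith
  have e : g β (-((4 + β) / (-β * (2803 / 100)))) = (-(2803 / 100) ^ 4 * ((-β) ^ 3 *
      (1 - -β) * (2 - -β) * (3 - -β)) +
      4 * (2803 / 100) ^ 3 * ((-β) ^ 3 * (4 - -β) * (2 - -β) * (3 - -β)) +
      6 * (2803 / 100) ^ 2 * ((-β) ^ 2 * (4 - -β) ^ 2 * (1 - -β) * (3 - -β)) +
      4 * (2803 / 100) * ((-β) * (4 - -β) ^ 3 * (1 - -β) * (2 - -β)) +
      (4 - -β) ^ 3 * (1 - -β) * (2 - -β) * (3 - -β)) /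
      ((2803 / 100) ^ 4 * (-β) ^ 4 * (1 + β) * (2 + β) * (3 + β)) := by
    have hb' : β ≠ 0 := by linarith
    unfold g
    field_simp
    ring
  rw [e]
  positivity

/-- a root of a real quadratic with negative discriminant -/
theorem quad {C D : ℝ} (h : C ^ 2 < 4 * D) {w : ℂ} (hw : w ^ 2 - C * w + D = 0) :
    ‖w‖ ^ 2 = D := by
  have h1 := congrArg Complex.re hw
  have h2 := congrArg Complex.im hw
  simp only [sq, Complex.add_re, Complex.sub_re, Complex.mul_re, Complex.ofReal_re,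
    Complex.ofReal_im, Complex.zero_re, Complex.add_im, Complex.sub_im, Complex.mul_im,
    Complex.zero_im] at h1 h2
  have h3 : w.im * (2 * w.re - C) = 0 := by linarith
  have h4 : w.im ≠ 0 := by
    intro h5
    rw [h5] at h1
    nlinarith [sq_nonneg (2 * w.re - C)]
  have h5 : C = 2 * w.re := by
    have := (mul_eq_zero.1 h3).resolve_left h4
    linarith
  rw [Complex.sq_norm, Complex.normSq_apply]
  rw [h5] at h1
  linarith

theorem ind (X : Fin 4 → ℝ → ℂ) {β : ℝ} {P : ℂ → Prop} (h : ∃ k, k ≠ 0 ∧ P (X k β)) :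
    P (X 1 β) ∨ P (X 2 β) ∨ P (X 3 β) := by
  obtain ⟨k, hk, h⟩ := h
  fin_cases k
  · exact absurd rfl hk
  · exact Or.inl h
  · exact Or.inr (Or.inl h)
  · exact Or.inr (Or.inr h)

/-- at `β = -67/250` the three other zeros have modulus `< 56/15` -/
theorem Lists.small (hX : Lists 3 X) (k : Fin 4) (hk : k ≠ 0) : ‖X k (-(67 / 250))‖ < 56 / 15 := by
  set β : ℝ := -(67 / 250) with hβd
  have hβ : β ∈ Ioo (-1 : ℝ) 0 := by
    rw [hβd]
    constructor <;> norm_num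
  have hcont : Continuous (g β) := by
    unfold g
    fun_prop
  have g1 : g β (373 / 100) < 0 := by
    rw [hβd]
    norm_num [g]
  have g2 : 0 < g β (3733 / 1000) := by
    rw [hβd]
    norm_num [g]
  obtain ⟨r, hr, hr0⟩ := intermediate_value_Icc (by norm_num : (373 / 100 : ℝ) ≤ 3733 / 1000)
    hcont.continuousOn (show (0 : ℝ) ∈ Icc (g β (373 / 100)) (g β (3733 / 1000)) from
      ⟨g1.le, g2.le⟩)
  have hy1 : ‖X 0 β‖ < 1 / 2 := by
    refine hX.lt_of_pos hβ (by norm_num) ?_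
    rw [hβd]
    norm_num [g]
  have hy2 : 49 / 100 < ‖X 0 β‖ := by
    refine hX.gt_of_neg hβ ?_
    rw [hβd]
    norm_num [g]
  have hx0 := (hX.neg hβ).1
  set y := ‖X 0 β‖ with hy
  have hrz : G 3 β (r : ℂ) = 0 := by
    rw [G3_real, hr0]
    simp
  obtain ⟨j, hj⟩ := (hX.zero_iff β hβ r).1 hrz
  have hj0 : j ≠ 0 := by
    rintro rfl
    rw [hx0] at hj
    have : -y = r := by exact_mod_cast hj
    linarith [hr.1]
  obtain ⟨v1, v2⟩ := hX.vieta hβ
  -- the three cases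
  have core : ∀ w z : ℂ, X 0 β + r + w + z = ((4 * (4 + β) / (3 + β) : ℝ) : ℂ) →
      X 0 β * r * w * z = (((4 + β) / β : ℝ) : ℂ) → ‖w‖ < 56 / 15 := by
    intro w z h1 h2
    rw [hx0] at h1 h2
    set C : ℝ := 4 * (4 + β) / (3 + β) + y - r with hC
    set D : ℝ := (4 + β) / (-β) / (y * r) with hD
    have hyr : 0 < y * r := mul_pos (by linarith) (by linarith [hr.1])
    have hs : w + z = (C : ℂ) := by
      rw [hC]
      push_cast at h1 ⊢
      linear_combination h1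
    have hp : w * z = (D : ℂ) := by
      have h3 : ((y * r : ℝ) : ℂ) ≠ 0 := by exact_mod_cast hyr.ne'
      have h4 : ((y * r : ℝ) : ℂ) * (w * z) = ((y * r : ℝ) : ℂ) * (D : ℂ) := by
        have h5 : (y * r) * D = (4 + β) / (-β) := by
          rw [hD, mul_comm, div_mul_cancel₀ _ hyr.ne']
        rw [← Complex.ofReal_mul (y * r) D, h5]
        have hb' : (β : ℂ) ≠ 0 := by exact_mod_cast hβ.2.ne
        push_cast at h2 ⊢
        have h6 : (4 + (β : ℂ)) / (-(β : ℂ)) = -((4 + β) / β) := by field_simp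
        rw [h6]
        linear_combination -h2
      exact mul_left_cancel₀ h3 h4
    have hw : w ^ 2 - C * w + D = 0 := by
      rw [← hs, ← hp]
      ring
    have e1 : 4 * (4 + β) / (3 + β) = 14928 / 2732 := by
      rw [hβd]
      norm_num
    have e2 : (4 + β) / (-β) = 3732 / 268 := by
      rw [hβd]
      norm_num
    have hCb : 0 ≤ C ∧ C ≤ 3 := by
      rw [hC, e1]
      constructor <;> linarith [hr.1, hr.2]
    have hDb : 7 ≤ D ∧ D ≤ 8 := by
      rw [hD, e2, le_div_iff₀ hyr, div_le_iff₀ hyr]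
      constructor <;> nlinarith [hr.1, hr.2]
    have hq := quad (C := C) (D := D) (by nlinarith) hw
    nlinarith [norm_nonneg w]
  have hrn : ‖(r : ℂ)‖ < 56 / 15 := by
    rw [Complex.norm_real, Real.norm_eq_abs, abs_of_pos (by linarith [hr.1])]
    linarith [hr.2]
  fin_cases j
  · exact absurd rfl hj0
  · simp only [Fin.mk_one, Fin.isValue] at hj
    rw [hj] at v1 v2
    fin_cases k
    · exact absurd rfl hk
    · simp only [Fin.mk_one, Fin.isValue]
      rw [hj]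
      exact hrn
    · exact core _ _ v1 v2
    · exact core (X 3 β) (X 2 β) (by linear_combination v1) (by linear_combination v2)
  · have hj' : X 2 β = r := hj
    rw [hj'] at v1 v2
    fin_cases k
    · exact absurd rfl hk
    · exact core (X 1 β) (X 3 β) (by linear_combination v1) (by linear_combination v2)
    · show ‖X 2 β‖ < _
      rw [hj']
      exact hrn
    · exact core (X 3 β) (X 1 β) (by linear_combination v1) (by linear_combination v2)
  · have hj' : X 3 β = r := hj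
    rw [hj'] at v1 v2
    fin_cases k
    · exact absurd rfl hk
    · exact core (X 1 β) (X 2 β) (by linear_combination v1) (by linear_combination v2)
    · exact core (X 2 β) (X 1 β) (by linear_combination v1) (by linear_combination v2)
    · show ‖X 3 β‖ < _
      rw [hj']
      exact hrn

/-- **Q1 is false for `α = 3`.**  However the zeros are listed, no `β₀` minimises all of
`|X_1|, |X_2|, |X_3|` over `(-1,0)`. -/
theorem result (X : Fin (3 + 1) → ℝ → ℂ) (hX : Lists 3 X) : ¬ ∃ β₀, CommonMinimiser 3 X β₀ := by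
  rintro ⟨β, hβ, hmin⟩
  have hβ1 : (-(67 / 250) : ℝ) ∈ Ioo (-1 : ℝ) 0 := by constructor <;> norm_num
  have hβ2 : (-(31 / 100) : ℝ) ∈ Ioo (-1 : ℝ) 0 := by constructor <;> norm_num
  by_cases hout : β ≤ -(57 / 200) ∨ -(1 / 4) ≤ β
  · obtain ⟨x, hx, hx0⟩ := big_root hβ (outside hβ hout)
    have hz : G 3 β (x : ℂ) = 0 := by
      rw [G3_real, hx0]
      simp
    obtain ⟨k, hk⟩ := (hX.zero_iff β hβ x).1 hz
    have hk0 : k ≠ 0 := by
      rintro rfl
      have h1 := (hX.real_neg β hβ).2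
      rw [hk, Complex.ofReal_re] at h1
      linarith
    have h1 := hmin k hk0 _ hβ1
    have h2 := hX.small k hk0
    rw [hk, Complex.norm_real, Real.norm_eq_abs, abs_of_pos (by linarith)] at h1
    linarith
  · push Not at hout
    obtain ⟨h1, h2⟩ := hout
    have hprod : ‖X 1 β‖ * ‖X 2 β‖ * ‖X 3 β‖ ≤
        ‖X 1 (-(31 / 100))‖ * ‖X 2 (-(31 / 100))‖ * ‖X 3 (-(31 / 100))‖ := by
      have a1 := hmin 1 (by decide) _ hβ2
      have a2 := hmin 2 (by decide) _ hβ2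
      have a3 := hmin 3 (by decide) _ hβ2
      gcongr
    have p1 := hX.prod hβ
    have p2 := hX.prod hβ2
    have y1 := (hX.neg hβ).2.2
    have y2 : 4247 / 10000 < ‖X 0 (-(31 / 100))‖ := by
      refine hX.gt_of_neg hβ2 ?_
      norm_num [g]
    set Q1 := ‖X 1 β‖ * ‖X 2 β‖ * ‖X 3 β‖
    set Q2 := ‖X 1 (-(31 / 100))‖ * ‖X 2 (-(31 / 100))‖ * ‖X 3 (-(31 / 100))‖
    have hQ2 : Q2 ≤ 2803 / 100 := by
      have : (4 + -(31 / 100 : ℝ)) / (-(-(31 / 100))) = 369 / 31 := by norm_num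
      rw [this] at p2
      by_contra hcon
      push Not at hcon
      nlinarith
    have hb : 0 < -β := by linarith
    have h4 : 0 < 4 + β := by linarith
    have h5 : (4 + β) / (-β * (2803 / 100)) ≤ ‖X 0 β‖ := by
      rw [div_le_iff₀ (by positivity)]
      have h6 : (4 + β) = ‖X 0 β‖ * Q1 * (-β) := by
        rw [p1, div_mul_cancel₀ _ hb.ne']
      have h7 : ‖X 0 β‖ * Q1 ≤ ‖X 0 β‖ * (2803 / 100) := by
        refine mul_le_mul_of_nonneg_left (hprod.trans hQ2) y1.le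
      nlinarith
    have h8 := inside h1.le h2.le
    have h9 := hX.lt_of_pos hβ (by positivity) h8
    linarith

end Pool.Agent.Results.MP_9fecad_an.NoCommonMinimiser
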